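import Pool.Agent.Helper89.OC.St2

/-!
# Project OC, module N33 (helper75): the case `N = 3`
-/

set_option autoImplicit false

namespace Pool.Agent.Helper75.OC

open Matrix ComplexConjugate Pool.Agent.Helper94.YF Pool.Agent.Helper94.YG Pool.Agent.Helper89.OS
  Pool.Agent.Helper89.OC

theorem mem_Ks {I : Type} [Fintype I] [DecidableEq I] {p : ℕ} (X : PD I p 1) (k : I) :
    k ∈ Ks X ↔ X.y k ≠ 0 ∧ X.t k = 1 ∧ k ≠ X.o := by
  unfold Ks
  simp only [Finset.mem_filter, Finset.mem_univ, true_and]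

theorem mem_Kp {I : Type} [Fintype I] [DecidableEq I] {p : ℕ} (X : PD I p 1) (a k : I) :
    k ∈ Kp X a ↔ k ∈ Ks X ∧ k ∉ Orb X a := by
  unfold Kp
  simp only [Finset.mem_filter]

theorem mem_Orb' {I : Type} [Fintype I] [DecidableEq I] {p : ℕ} (X : PD I p 1) (k j : I) :
    j ∈ Orb X k ↔ ∃ c, X.pi c k = j := by
  unfold Orb
  simp only [Finset.mem_filter, Finset.mem_univ, true_and]

theorem hN33 : StN33 := by
  intro hGPP hKSS hGPZ hMXX hPRV hCMM hRB hIB hTS2 hORB hE3 hE4 hE2 I _ _ p _ X Q a hG hGA hn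
  classical
  obtain ⟨w, hwK, hwg⟩ := hGPP hGPZ hMXX hPRV hCMM hTS2 hORB hE4 hE2 I p X Q 3 a hG hGA hn
  have hks := hKSS hRB hIB hTS2 hORB hE3 hE2 hE4 I p X Q 3 a hG w hwK hwg
  have hO : OB X := hORB I p X
  have hg2 : 2 ≤ gX X := by
    have h := (Helper39.OS.hMZZ I p X).2.2.2.2.1
    unfold gX
    exact h
  have hpN : (p : ℤ) = 3 * gX X + 1 := by
    have h := hG.pN
    push_cast at h
    linarith
  -- orbits of single points
  have hsing : ∀ k, (Orb X k).card = 1 → Orb X k = {k} := by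
    intro k hk
    obtain ⟨x, hx⟩ := Finset.card_eq_one.1 hk
    have h1 : k ∈ Orb X k := hO.self k
    rw [hx, Finset.mem_singleton] at h1
    rw [hx, h1]
  -- the orbit of `w`
  have hwKs : w ∈ Ks X := ((mem_Kp X a w).1 hwK).1
  have hwa : w ∉ Orb X a := ((mem_Kp X a w).1 hwK).2
  have hww := (mem_Ks X w).1 hwKs
  have hsubw : Orb X w ⊆ Kp X a := by
    intro j hj
    refine (mem_Kp X a j).2 ⟨(mem_Ks X j).2 ⟨?_, ?_, ?_⟩, ?_⟩
    · rw [hO.y w j hj]
      exact hww.1
    · exact hO.t w j hj hww.2.1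
    · intro hjo
      rw [hjo] at hj
      exact hww.2.2 (hO.o w hj)
    · intro hja
      have h1 := hO.eq w j hj
      have h2 := hO.eq a j hja
      apply hwa
      rw [← h2, h1]
      exact hO.self w
  -- the set of single points
  set Sg : Finset I := (Kp X a).filter fun k => k ∉ Orb X w with hSg
  have hmS : ∀ k, k ∈ Sg ↔ k ∈ Kp X a ∧ k ∉ Orb X w := by
    intro k
    rw [hSg, Finset.mem_filter]
  have hcard1 : ∀ k ∈ Sg, Orb X k = {k} := by
    intro k hk
    exact hsing k (hks k ((hmS k).1 hk).1 ((hmS k).1 hk).2)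
  have hsum : ∀ F : I → ℤ, ∑ k ∈ Kp X a, F k = ∑ k ∈ Orb X w, F k + ∑ k ∈ Sg, F k := by
    intro F
    have h1 : Kp X a = Orb X w ∪ Sg := by
      ext k
      rw [Finset.mem_union, hmS k]
      constructor
      · intro h
        by_cases hk : k ∈ Orb X w
        · exact Or.inl hk
        · exact Or.inr ⟨h, hk⟩
      · rintro (h | h)
        · exact hsubw h
        · exact h.1
    have h2 : Disjoint (Orb X w) Sg := by
      rw [Finset.disjoint_left]
      intro k hk hk2
      exact ((hmS k).1 hk2).2 hk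
    rw [h1, Finset.sum_union h2]
  have hsumw : ∀ F : I → ℤ, (∀ k ∈ Orb X w, F k = F w) → ∑ k ∈ Orb X w, F k = gX X * F w := by
    intro F hF
    rw [Finset.sum_congr rfl hF, Finset.sum_const, nsmul_eq_mul, hwg]
  -- divisibility
  obtain ⟨j, hj1, hj2⟩ := X.ex
  have hjt : X.t j ≠ 1 := by
    intro h
    apply hj2
    rw [h, one_pow]
  have hdiv : ∀ k ∈ Sg, ∃ c : ℤ, X.y k = gX X * c ∧ c ≠ 0 := by
    intro k hk
    have hkK : k ∈ Ks X := ((mem_Kp X a k).1 ((hmS k).1 hk).1).1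
    have h1 := (hTS2 hORB I p X Q hG.blk k hkK).2 j hjt
    rw [hcard1 k hk] at h1
    rw [Finset.sum_singleton, Finset.card_singleton] at h1
    have hgC : ((gX X : ℤ) : ℂ) ≠ 0 := by
      have : gX X ≠ 0 := by linarith
      exact_mod_cast this
    have h2 : X.chi j k = (((-(X.y k : ℚ) / (gX X : ℚ)) : ℚ) : ℂ) := by
      push_cast
      rw [eq_div_iff hgC, mul_comm, h1]
      push_cast
      ring
    obtain ⟨m, hm⟩ := Pool.Agent.Helper94.YF.hRAT'.2 (-(X.y k : ℚ) / (gX X : ℚ)) (by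
      rw [← h2]
      exact X.chi_int j k)
    have hgQ : ((gX X : ℤ) : ℚ) ≠ 0 := by
      have : gX X ≠ 0 := by linarith
      exact_mod_cast this
    rw [eq_div_iff hgQ] at hm
    have hm' : m * gX X = -X.y k := by exact_mod_cast hm
    refine ⟨-m, by linarith, ?_⟩
    intro hm0
    have : m = 0 := by linarith
    rw [this] at hm'
    have hy0 : X.y k = 0 := by linarith
    exact ((mem_Ks X k).1 hkK).1 hy0
  -- duality
  have hstS : ∀ k ∈ Sg, X.st k ∈ Sg ∧ X.st k ≠ k ∧ Orb X (X.st k) = {X.st k} := by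
    intro k hk
    have hkK : k ∈ Ks X := ((mem_Kp X a k).1 ((hmS k).1 hk).1).1
    have hkk := (mem_Ks X k).1 hkK
    have hos : Orb X (X.st k) = {X.st k} := by
      ext i
      rw [mem_Orb', Finset.mem_singleton]
      constructor
      · rintro ⟨c, hc⟩
        have h1 : X.pi c k ∈ Orb X k := (mem_Orb' X k _).2 ⟨c, rfl⟩
        rw [hcard1 k hk, Finset.mem_singleton] at h1
        rw [← hc, hGA.pi_st, h1]
      · intro hi
        exact ⟨1, by rw [hi, X.pi_one]⟩
    have hcg : ∀ b : I, ((Orb X b).card : ℤ) = gX X → X.st k ∉ Orb X b := by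
      intro b hb hmem
      have h1 := hO.eq b _ hmem
      rw [hos] at h1
      rw [← h1, Finset.card_singleton] at hb
      push_cast at hb
      linarith
    refine ⟨(hmS _).2 ⟨(mem_Kp X a _).2 ⟨(mem_Ks X _).2 ⟨?_, ?_, ?_⟩, ?_⟩, ?_⟩, ?_, hos⟩
    · rw [X.y_st]
      exact hkk.1
    · rw [X.t_st]
      exact hkk.2.1
    · intro h
      apply hkk.2.2
      rw [← X.st_st k, h, X.st_o]
    · exact hcg a hG.aO
    · exact hcg w hwg
    · intro h
      exact hkk.2.2 (X.nsd k h)
  -- the sums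
  have hsq := hG.sq
  rw [hsum, hsumw (fun k => X.y k ^ 2) (fun k hk => by
    show X.y k ^ 2 = X.y w ^ 2
    rw [hO.y w k hk])] at hsq
  have hdm := hG.dm
  rw [hsum, hsumw (fun k => X.y k * (X.d k : ℤ)) (fun k hk => by
    show X.y k * (X.d k : ℤ) = X.y w * (X.d w : ℤ)
    rw [hO.y w k hk, hO.d w k hk])] at hdm
  have hyw1 : 1 ≤ X.y w ^ 2 := by
    have h1 : 0 < X.y w ^ 2 := by
      have := hww.1
      positivity
    linarith
  -- `Sg` is nonempty
  have hne : Sg.Nonempty := by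
    by_contra hemp
    rw [Finset.not_nonempty_iff_eq_empty] at hemp
    rw [hemp, Finset.sum_empty, add_zero] at hsq hdm
    have h1 : X.y w ^ 2 = 2 * gX X + 1 := by
      have h2 : gX X * X.y w ^ 2 = gX X * (2 * gX X + 1) := by
        rw [hsq, hpN]
        ring
      exact mul_left_cancel₀ (by linarith) h2
    have h3 : X.y w * (X.d w : ℤ) = 1 := by
      have h2 : gX X * (X.y w * (X.d w : ℤ)) = gX X * 1 := by
        rw [hdm]
        ring
      exact mul_left_cancel₀ (by linarith) h2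
    have h4 : X.y w ^ 2 = 1 := by
      rcases Int.eq_one_or_neg_one_of_mul_eq_one h3 with h | h
      · rw [h]
        norm_num
      · rw [h]
        norm_num
    linarith
  obtain ⟨v, hv⟩ := hne
  obtain ⟨hsv, hsvne, hosv⟩ := hstS v hv
  obtain ⟨c, hc, hc0⟩ := hdiv v hv
  -- every term of the sum over `Sg` is at least `g ^ 2`
  have hterm : ∀ k ∈ Sg, gX X ^ 2 ≤ X.y k ^ 2 := by
    intro k hk
    obtain ⟨e, he, he0⟩ := hdiv k hk
    have h1 : 1 ≤ e ^ 2 := by
      have : 0 < e ^ 2 := by positivity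
      linarith
    rw [he, mul_pow]
    nlinarith [sq_nonneg (gX X)]
  have hSgeq : ∀ k ∈ Sg, k = v ∨ k = X.st v := by
    intro k hk
    by_contra hcon
    rw [not_or] at hcon
    have hsub : ({k, v, X.st v} : Finset I) ⊆ Sg := by
      intro i hi
      rw [Finset.mem_insert, Finset.mem_insert, Finset.mem_singleton] at hi
      rcases hi with rfl | rfl | rfl
      · exact hk
      · exact hv
      · exact hsv
    have hc3 : ({k, v, X.st v} : Finset I).card = 3 := by
      rw [Finset.card_insert_of_notMem, Finset.card_pair (fun h => hsvne h.symm)]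
      rw [Finset.mem_insert, Finset.mem_singleton, not_or]
      exact hcon
    have h1 : (3 : ℤ) * gX X ^ 2 ≤ ∑ i ∈ Sg, X.y i ^ 2 := by
      calc (3 : ℤ) * gX X ^ 2 = ∑ i ∈ ({k, v, X.st v} : Finset I), gX X ^ 2 := by
            rw [Finset.sum_const, hc3, nsmul_eq_mul]
            norm_num
        _ ≤ ∑ i ∈ ({k, v, X.st v} : Finset I), X.y i ^ 2 :=
            Finset.sum_le_sum fun i hi => hterm i (hsub hi)
        _ ≤ ∑ i ∈ Sg, X.y i ^ 2 :=
            Finset.sum_le_sum_of_subset_of_nonneg hsub fun i _ _ => sq_nonneg _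
    have h2 : ∑ i ∈ Sg, X.y i ^ 2 ≤ gX X * (p - gX X) := by
      have : 0 ≤ gX X * X.y w ^ 2 := by positivity
      linarith
    rw [hpN] at h2
    nlinarith
  have hS2 : Sg = {v, X.st v} := by
    ext i
    rw [Finset.mem_insert, Finset.mem_singleton]
    constructor
    · exact hSgeq i
    · rintro (rfl | rfl)
      · exact hv
      · exact hsv
  have hpair : ∀ F : I → ℤ, ∑ k ∈ Sg, F k = F v + F (X.st v) := by
    intro F
    rw [hS2, Finset.sum_pair (fun h => hsvne h.symm)]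
  rw [hpair] at hsq hdm
  rw [X.y_st, hc, hpN] at hsq
  rw [X.y_st, X.d_st, hc] at hdm
  have hg0 : gX X ≠ 0 := by linarith
  have h1 : X.y w ^ 2 + 2 * gX X * c ^ 2 = 2 * gX X + 1 := by
    have h2 : gX X * (X.y w ^ 2 + 2 * gX X * c ^ 2) = gX X * (2 * gX X + 1) := by
      linarith
    exact mul_left_cancel₀ hg0 h2
  have h2 : X.y w * (X.d w : ℤ) + 2 * (c * (X.d v : ℤ)) = 1 := by
    have h3 : gX X * (X.y w * (X.d w : ℤ) + 2 * (c * (X.d v : ℤ))) = gX X * 1 := by
      linarith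
    exact mul_left_cancel₀ hg0 h3
  have hc1 : c ^ 2 = 1 := by
    have h3 : 1 ≤ c ^ 2 := by
      have : 0 < c ^ 2 := by positivity
      linarith
    by_contra hne
    have h4 : 2 ≤ c ^ 2 := by
      have : 1 < c ^ 2 := lt_of_le_of_ne h3 (Ne.symm hne)
      linarith
    nlinarith
  have hw1 : X.y w ^ 2 = 1 := by
    rw [hc1] at h1
    linarith
  refine ⟨v, w, ?_, hwKs, ?_, hsvne, hcard1 v hv, hosv, ?_, hw1, hwg, ?_, ?_⟩
  · exact ((mem_Kp X a v).1 ((hmS v).1 hv).1).1
  · exact ((mem_Kp X a _).1 ((hmS _).1 hsv).1).1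
  · rw [hc, mul_pow, hc1, mul_one]
  · exact Nat.isCoprime_iff_coprime.1 ⟨2 * c, X.y w, by linarith⟩
  · intro k hk
    by_cases hka : k ∈ Orb X a
    · exact Or.inl hka
    · by_cases hkw : k ∈ Orb X w
      · exact Or.inr (Or.inl hkw)
      · have h3 : k ∈ Sg := (hmS k).2 ⟨(mem_Kp X a k).2 ⟨hk, hka⟩, hkw⟩
        rcases hSgeq k h3 with h | h
        · exact Or.inr (Or.inr (Or.inl h))
        · exact Or.inr (Or.inr (Or.inr h))

end Pool.Agent.Helper75.OC
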